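import Pool.Agent.K9h14.ZA.Coc

/-!
Zero in the spectrum for finite aspherical complexes `M` whose fundamental group `G` has a
non-trivial cohomology class of degree one with coefficients in a permutation module `ℤ[S]`, the
stabilisers of the points of `S` being (iterated) graphs of groups with amenable edge groups.

`X : FinRes G` is the cellular chain complex of the universal cover of a finite aspherical complex
`M` with fundamental group `G` (`Pool.Agent.H919R4.ZS.Defs`) and `X.homology (toRed G) i` is
`H_i(M; C*_r(G))`. The class `TreeAmenable` is defined in `Pool.Agent.K9h14.ZA.Defs`.

Examples (not formalised here). An almost invariant subset `D` of a `G`-set `S` (`gD` and `D` differ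
by a finite set for every `g`) gives the derivation `g ↦ 1_(gD) - 1_D`, which is inner if and only
if `D` differs from a `G`-invariant subset by a finite set. So the theorem applies to groups with a
codimension-one subgroup `B` (at least two ends relative to `B`, `S = G/B`), and to groups which act
on a space with walls (for example a CAT(0) cube complex, of any dimension) with unbounded orbits,
if `B`, respectively the stabilisers of the walls, are `TreeAmenable` (for example free groups,
surface groups, generalised Baumslag-Solitar groups, limit groups).
-/

set_option autoImplicit false

namespace Pool.Agent.Results.MP_9f173d_gt.CodimensionOneSubgroups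

open Pool.Agent.H919R4.ZS (FinRes toRed)
open Pool.Agent.K9h14.ZA (TreeAmenable)

/-- The action of `g` on the element `m` of the permutation module `ℤ[S]`. -/
noncomputable def act {G S : Type} [Group G] [MulAction G S] (g : G) (m : S →₀ ℤ) : S →₀ ℤ :=
  m.mapDomain (fun s => g • s)

/-- Let `X` be a finite free resolution of `ℤ` over `ℤ[G]`, and let `S` be a `G`-set such that the
stabilisers of the points of `S` belong to the class `TreeAmenable`. If there is a derivation
`b : G → ℤ[S]` which is not inner (that is, if `H^1(G; ℤ[S]) ≠ 0`), then `H_i(M; C*_r(G)) ≠ 0` for
some `i ≤ 2`. -/
theorem result (G : Type) [Group G] (X : FinRes G) (S : Type) [MulAction G S]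
    (hS : ∀ s : S, TreeAmenable (MulAction.stabilizer G s))
    (b : G → (S →₀ ℤ)) (hb : ∀ g h : G, b (g * h) = b g + act g (b h))
    (hn : ¬ ∃ m : S →₀ ℤ, ∀ g : G, b g = act g m - m) :
    ∃ i ≤ 2, Nontrivial (X.homology (toRed G) i) :=
  Pool.Agent.K9h14.ZA.der_class X hS b hb hn

end Pool.Agent.Results.MP_9f173d_gt.CodimensionOneSubgroups
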