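import Pool.Agent.K9h14.ZB.Main

/-!
Zero in the spectrum for finite aspherical complexes `M` of dimension at most `h + 2` whose
fundamental group `G` has a commensurated subgroup isomorphic to `ℤ^h`.

`X : FinRes G` is the cellular chain complex of the universal cover of a finite aspherical complex
`M` with fundamental group `G` (`Pool.Agent.H919R4.ZS.Defs`), `X.len` is the dimension of `M`,
`X.homology (toRed G) i` is `H_i(M; C*_r(G))` and `X.cohomology n` is `H^n(G; ℤ[G])`, which is the
cohomology with compact supports of the universal cover. A subgroup `A` is commensurated if
`A ∩ g A g⁻¹` has finite index in `A` and in `g A g⁻¹` for all `g`, that is, if the commensurator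
of `A` (in Mathlib `Subgroup.Commensurable.commensurator A`) is `G`. For instance, normal subgroups
are commensurated.

The main step (`Pool.Agent.K9h14.ZB.smooth`) is that every element of `H^n(G; ℤ[G])`, `n ≥ 1`, is
fixed by a subgroup of finite index of a finitely generated abelian commensurated subgroup `A`
(which acts on this cohomology by right multiplication).

Examples (not formalised here).
* `h = 1`: every finite aspherical complex `M` of dimension three whose fundamental group has a
  non-trivial abelian normal subgroup `N` (finitely generated or not): if `N` has rank `h`, then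
  `h` independent elements of `N` generate a commensurated subgroup `ℤ^h`. This includes the groups
  with a non-trivial solvable normal subgroup.
* The groups `G` which contain `ℤ^h` as a normal subgroup such that `G/ℤ^h` has a classifying space
  of dimension two, or satisfies `H^k(G/ℤ^h; ℤ[G/ℤ^h]) ≠ 0` for some `k ≤ 2`, whatever the
  extension is.
-/

set_option autoImplicit false

namespace Pool.Agent.Results.MP_9f173d_gt.CommensuratedAbelian

open Pool.Agent.H919R4.ZS (FinRes toRed)

/-- Let `X` be a finite free resolution of `ℤ` over `ℤ[G]` (the cellular chain complex of the
universal cover of `M`), and let `A` be a subgroup of `G` which is isomorphic to `ℤ^h` and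
commensurated. If `M` has dimension at most `h + 2`, or if `H^n(G; ℤ[G]) ≠ 0` for some `n ≤ h + 2`,
then `H_i(M; C*_r(G)) ≠ 0` for some `i ≤ 2`. -/
theorem result (G : Type) [Group G] (X : FinRes G) (h : ℕ) (A : Subgroup G)
    (e : A ≃* Multiplicative (Fin h → ℤ)) (hA : Subgroup.Commensurable.commensurator A = ⊤)
    (hX : X.len ≤ h + 2 ∨ ∃ n ≤ h + 2, Nontrivial (X.cohomology n)) :
    ∃ i ≤ 2, Nontrivial (X.homology (toRed G) i) :=
  Pool.Agent.K9h14.ZB.main X A e hA hX

end Pool.Agent.Results.MP_9f173d_gt.CommensuratedAbelian
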