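import Pool.Agent.K9h14.ZA.Cls

/-!
Zero in the spectrum for finite aspherical complexes `M` whose fundamental group acts on an
acyclic complex of dimension two, such that the stabilisers of the 2-cells are amenable and the
stabilisers of the edges are (iterated) graphs of groups with amenable edge groups. The
stabilisers of the vertices can be arbitrary subgroups.

`X : FinRes G` is the cellular chain complex of the universal cover of a finite aspherical complex
`M` with fundamental group `G` (`Pool.Agent.H919R4.ZS.Defs`) and `X.homology (toRed G) i` is
`H_i(M; C*_r(G))`. Amenability is the Foelner condition (`Pool.Agent.H496R3.ZS.Stmt`), the class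
`TreeAmenable` is defined in `Pool.Agent.K9h14.ZA.Defs`, complexes with an action of `G` in
`Pool.Agent.TH38.CX.Syz`.

Examples (not formalised here). Amenable groups, free groups, fundamental groups of surfaces and
generalised Baumslag-Solitar groups are `TreeAmenable`, and so are the groups with a hierarchy over
amenable subgroups which ends in amenable groups, for example limit groups. The theorem applies
* if `G` is a non-trivial amalgamated product or HNN extension, with any vertex groups, over a
  `TreeAmenable` group (`Y` is the Bass-Serre tree),
* if `G` is the fundamental group of a developable two-dimensional complex of groups, with infinite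
  index vertex groups, `TreeAmenable` edge groups and amenable face groups, whose development is
  acyclic,
* if `G` has an amenable normal subgroup `N` such that `G/N` acts on a contractible complex of
  dimension two with finite stabilisers.
-/

set_option autoImplicit false

namespace Pool.Agent.Results.MP_9f173d_gt.TwoDimensionalActions

open Pool.Agent.H919R4.ZS (FinRes toRed)
open Pool.Agent.H496R3.ZS (IsAmenable)
open Pool.Agent.TH38.CX (AcyclicGComplex)
open Pool.Agent.K9h14.ZA (TreeAmenable)

/-- Let `X` be a finite free resolution of `ℤ` over `ℤ[G]`, and let `G` act on an acyclic complex
`Y` of dimension at most two. Suppose that the orbits of the vertices are infinite, that the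
stabilisers of the edges belong to the class `TreeAmenable` and that the stabilisers of the
2-cells are amenable. Then `H_i(M; C*_r(G)) ≠ 0` for some `i ≤ 2`. -/
theorem result (G : Type) [Group G] (X : FinRes G) (Y : AcyclicGComplex G) (hY : Y.len ≤ 2)
    (h0 : ∀ v : Y.E 0, (MulAction.orbit G v).Infinite)
    (h1 : ∀ e : Y.E 1, TreeAmenable (MulAction.stabilizer G e))
    (h2 : ∀ f : Y.E 2, IsAmenable (MulAction.stabilizer G f)) :
    ∃ i ≤ 2, Nontrivial (X.homology (toRed G) i) :=
  Pool.Agent.K9h14.ZA.two_dim X Y hY h0 h1 h2

end Pool.Agent.Results.MP_9f173d_gt.TwoDimensionalActions
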